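import Pool.Agent.Helper86.AN.Stmts

set_option autoImplicit false

/-!
# MP_4042d8_co: module LC
-/

namespace Pool.Agent.Helper52.AN

open Pool.Agent.Helper86.AN Finset

/-- in an environment the `e k` are `true` and never equal to a `w (e l)` -/
theorem env_ne {V : Type} [Fintype V] [DecidableEq V] {s : Equiv.Perm V} {A : Finset V}
    {m w : V → V} {u : Bool → V} {n : ℤ} {e : ℤ → V} {c : V → Bool} (hK : KD s A m w u)
    (hZ : ZD A m w u n e) (hE : Env A m w u e c) : ∀ k l, e k ≠ w (e l) := by
  have hstep : ∀ k, c (e (k + 1)) = c (e k) := by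
    intro k
    rw [← hZ.om k, hE.bm _ (hK.winv _ (hZ.eA k)).1, hE.bw _ (hZ.eA k), Bool.not_not]
  have hc : ∀ k, c (e k) = true := by
    intro k
    induction k with
    | zero => exact hE.e0
    | succ k ih => rw [hstep, ih]
    | pred k ih =>
      rw [← hstep, sub_add_cancel]
      exact ih
  intro k l h
  have h1 := hE.bw _ (hZ.eA l)
  rw [← h, hc, hc] at h1
  exact absurd h1 (by decide)

theorem st_LC (hEV : ST_EV) (hRF : ST_RF) (hCOL : ST_COL) (hINN : ST_INN) : ST_LC := by
  intro V _ _ s A m w u n e c i a b c₁ c₂ hK hZ hE hab hba hS1 hS2 h1 h2 h3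
  have hne := env_ne hK hZ hE
  obtain ⟨-, hAp, -, -, hrA, hrr, -, -, -⟩ := hRF V s A m w u hK
  obtain ⟨kB, kE, kW, -, -, kS, kI, kN⟩ := hCOL V s A m w u n e c i a b hK hZ hE hab hba
  obtain ⟨lB, -, -, -, -, -, lI, lN⟩ := hCOL V s A m w u n e c (!i) a b hK hZ hE hab hba
  rw [Bool.not_not] at lN
  have kea : col w u e i c a b (e a) = true := by
    have h : e a = e (a + n) := (hZ.per _ _).2 ⟨-1, by ring⟩
    rw [h]
    exact (kE (a + n) (by linarith [hZ.npos]) le_rfl).2 hba
  have keb : col w u e i c a b (e b) = false := by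
    have h := kE b hab hba.le
    rw [← Bool.not_eq_true, h]
    exact lt_irrefl b
  -- the neighbours of the kinks
  have hnb : ∀ j, (∃ k, s (u j) = e k) ∧ ∃ k, s.symm (u j) = e k := by
    intro j
    have hj : j = i ∨ j = !i := by cases i <;> cases j <;> simp
    rcases hj with h | h
    · rw [h]
      rcases hS1 with ⟨x, y⟩ | ⟨x, y⟩
      · exact ⟨⟨_, x.symm⟩, ⟨_, y.symm⟩⟩
      · exact ⟨⟨_, x.symm⟩, ⟨_, y.symm⟩⟩
    · rw [h]
      rcases hS2 with ⟨x, y⟩ | ⟨x, y⟩
      · exact ⟨⟨_, x.symm⟩, ⟨_, y.symm⟩⟩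
      · exact ⟨⟨_, x.symm⟩, ⟨_, y.symm⟩⟩
  have hwA : ∀ k, w (e k) ∈ Ap A u := fun k => (hK.winv _ (hZ.eA k)).1
  have hout : ∀ k, rr s w (w (e k)) ∈ Ap A u := by
    intro k
    rw [hAp]
    refine ⟨(hrA _ (hwA k)).1, fun j hj => ?_⟩
    obtain ⟨⟨k1, e1⟩, ⟨k2, e2⟩⟩ := hnb j
    rcases (hrr _ (hwA k) j).1 hj with h | h
    · rw [e1] at h
      exact hne _ _ h.symm
    · rw [e2] at h
      exact hne _ _ h.symm
  have ra : rr s w (e a) = u i := by
    rw [hrr _ (hZ.eA a) i]
    rcases hS1 with ⟨x, y⟩ | ⟨x, y⟩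
    · exact Or.inl x
    · exact Or.inr y
  have rb : rr s w (e b) = u i := by
    rw [hrr _ (hZ.eA b) i]
    rcases hS1 with ⟨x, y⟩ | ⟨x, y⟩
    · exact Or.inr y
    · exact Or.inl x
  have hI := hINN V s A m w u n e c i a b hK hZ hE hab hba
  have hJ := hINN V s A m w u n e c (!i) a b hK hZ hE hab hba
  have ea := kS _ (hZ.eA a)
  have eb := kS _ (hZ.eA b)
  cases hrb : col w u e i c a b (rr s w (w (e b))) with
  | true =>
    refine ⟨col w u e i c a b, kB, hEV V s A m _ hK.sinv hK.per hK.minv kB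
      (Or.inr (Or.inl ⟨u (!i), e b, ?_, ?_⟩))⟩
    · ext v
      rw [(hI v).1, mem_singleton]
      constructor
      · rintro (⟨h | h, h'⟩ | ⟨h, -⟩)
        · rw [h, ra, kI] at h'
          exact absurd h' (by decide)
        · rw [h, h3] at h'
          exact absurd h' (by decide)
        · exact h
      · intro h
        refine Or.inr ⟨h, ?_⟩
        rw [h]
        rcases hS2 with ⟨x, y⟩ | ⟨x, y⟩
        · rw [← x, ← y]
          exact ⟨h1, h2⟩
        · rw [← x, ← y]
          exact ⟨h2, h1⟩
    · ext v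
      rw [(hI v).2, mem_singleton]
      constructor
      · rintro (⟨h | h, h'⟩ | ⟨h, h', h''⟩)
        · exact h
        · rw [h, hrb] at h'
          exact absurd h' (by decide)
        · exfalso
          rw [h] at h' h''
          rcases hS1 with ⟨x, y⟩ | ⟨x, y⟩
          · rw [← x, kea] at h'
            exact absurd h' (by decide)
          · rw [← y, kea] at h''
            exact absurd h'' (by decide)
      · intro h
        refine Or.inl ⟨Or.inl h, ?_⟩
        rw [h, rb, kI]
  | false =>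
    refine ⟨col w u e (!i) c a b, lB, hEV V s A m _ hK.sinv hK.per hK.minv lB
      (Or.inr (Or.inl ⟨e a, w (e b), ?_, ?_⟩))⟩
    · ext v
      rw [(hJ v).1, mem_singleton, Bool.not_not]
      constructor
      · rintro (⟨h | h, h'⟩ | ⟨h, h', h''⟩)
        · exact h
        · rw [h, kS _ (hout a), h3] at h'
          exact absurd h' (by decide)
        · exfalso
          rw [h] at h' h''
          rcases hS1 with ⟨x, y⟩ | ⟨x, y⟩
          · rw [← y, eb, keb] at h''
            exact absurd h'' (by decide)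
          · rw [← x, eb, keb] at h'
            exact absurd h' (by decide)
      · intro h
        refine Or.inl ⟨Or.inl h, ?_⟩
        rw [h, ra, lN]
    · ext v
      rw [(hJ v).2, mem_singleton]
      constructor
      · rintro (⟨h | h, h'⟩ | ⟨h, h', h''⟩)
        · rw [h, rb, lN] at h'
          exact absurd h' (by decide)
        · exact h
        · exfalso
          rw [h] at h' h''
          rcases hS2 with ⟨x, y⟩ | ⟨x, y⟩
          · rw [← x, kS _ (hZ.eA _), h1] at h'
            exact absurd h' (by decide)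
          · rw [← y, kS _ (hZ.eA _), h1] at h''
            exact absurd h'' (by decide)
      · intro h
        refine Or.inl ⟨Or.inr h, ?_⟩
        rw [h, kS _ (hout b), hrb]

end Pool.Agent.Helper52.AN
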