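import Pool.Agent.Helper86.AN.Stmts

set_option autoImplicit false

/-!
# MP_4042d8_co: module MAIN
-/

namespace Pool.Agent.Helper52.AN

open Pool.Agent.Helper86.AN Finset

variable {V : Type} [Fintype V] [DecidableEq V]

theorem mem_orb {s : Equiv.Perm V} {a v : V} : v ∈ orb s a ↔ s.SameCycle a v := by
  unfold orb
  simp

theorem self_mem (s : Equiv.Perm V) (a : V) : a ∈ orb s a := mem_orb.2 (Equiv.Perm.SameCycle.refl s a)

theorem sinv_zpow {s : Equiv.Perm V} {A : Finset V} (h : Sinv s A) (v : V) (i : ℤ) :
    (s ^ i) v ∈ A ↔ v ∈ A := by
  induction i with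
  | zero => simp
  | succ i ih =>
    rw [← ih, add_comm, zpow_add, zpow_one, Equiv.Perm.mul_apply]
    exact h _
  | pred i ih =>
    rw [← ih, ← h ((s ^ (-(i : ℤ) - 1)) v), ← Equiv.Perm.mul_apply]
    have : s * s ^ (-(i : ℤ) - 1) = s ^ (-(i : ℤ)) := by
      rw [← zpow_one_add]
      congr 1
      ring
    rw [this]

theorem orb_sub {s : Equiv.Perm V} {A : Finset V} (h : Sinv s A) {a : V} (ha : a ∈ A) :
    orb s a ⊆ A := by
  intro v hv
  obtain ⟨i, hi⟩ := mem_orb.1 hv
  rw [← hi]
  exact (sinv_zpow h a i).2 ha

theorem orb_sinv (s : Equiv.Perm V) (a : V) : Sinv s (orb s a) := by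
  intro v
  rw [mem_orb, mem_orb, Equiv.Perm.sameCycle_apply_right]

theorem orb_eq {s : Equiv.Perm V} {a b : V} (h : s.SameCycle a b) : orb s a = orb s b := by
  ext v
  rw [mem_orb, mem_orb]
  exact ⟨fun h' => h.symm.trans h', fun h' => h.trans h'⟩

theorem sinv_sdiff {s : Equiv.Perm V} {A S : Finset V} (hA : Sinv s A) (hS : Sinv s S) :
    Sinv s (A \ S) := by
  intro v
  rw [mem_sdiff, mem_sdiff, hA v, hS v]

theorem sinv_union {s : Equiv.Perm V} {A S : Finset V} (hA : Sinv s A) (hS : Sinv s S) :
    Sinv s (A ∪ S) := by
  intro v
  rw [mem_union, mem_union, hA v, hS v]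

theorem per3_mono {s : Equiv.Perm V} {A B : Finset V} (hB : Per3 s B) (h : A ⊆ B) : Per3 s A :=
  fun v hv => hB v (h hv)

theorem card_filter_sdiff {A S : Finset V} (hS : S ⊆ A) (p : V → Prop) [DecidablePred p] :
    ((A \ S).filter p).card + (S.filter p).card = (A.filter p).card := by
  rw [← card_union_of_disjoint (disjoint_filter_filter sdiff_disjoint), ← filter_union,
    sdiff_union_of_subset hS]

theorem lam_sub {s : Equiv.Perm V} {A S : Finset V}
    (h : ∀ l, 5 ≤ l → Odd l → Odd ((A \ S).filter (fun v => (orb s v).card = l)).card →
      Odd (A.filter (fun v => (orb s v).card = l)).card) : Lam s (A \ S) ⊆ Lam s A := by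
  intro l hl
  unfold Lam at hl ⊢
  rw [mem_filter] at hl ⊢
  exact ⟨hl.1, hl.2.1, hl.2.2.1, h l hl.2.1 hl.2.2.1 hl.2.2.2⟩

theorem even_card {A : Finset V} {m : V → V} (h : InvOn A m) : Even A.card := by
  have h1 : ∑ v ∈ A, (1 : ZMod 2) = 0 :=
    Finset.sum_involution (fun v _ => m v) (fun v _ => by decide) (fun v hv _ => (h v hv).2.2)
      (fun v hv => (h v hv).1) (fun v hv => (h v hv).2.1)
  rw [sum_const, nsmul_eq_mul, mul_one] at h1
  exact (ZMod.natCast_eq_zero_iff_even).1 h1

theorem st_MAIN (hRED : ST_RED) (hTBAL : ST_TBAL) (hTIL : ST_TIL) (hEQ : ST_EQ) (hTRI : ST_TRI)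
    (hK1 : ST_K1) : ST_MAIN := by
  intro V _ _ s
  have main : ∀ (N : ℕ) (A : Finset V) (m : V → V), A.card ≤ N → Sinv s A → Per3 s A →
      InvOn A m → (Lam s A).card ≤ 3 → Good s A m := by
    intro N
    induction N with
    | zero =>
      intro A m hN _ _ _ _
      have hA : A = ∅ := card_eq_zero.1 (by omega)
      subst hA
      exact ⟨fun _ => true, fun v hv => absurd hv (notMem_empty v), id,
        fun v hv => absurd hv (notMem_empty v)⟩
    | succ N ih =>
      intro A m hN hinv hper hm hLam
      -- induction step for A \ S
      have step : ∀ S : Finset V, Sinv s S → S ⊆ A → S.Nonempty → Lam s (A \ S) ⊆ Lam s A →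
          ∀ m' : V → V, InvOn (A \ S) m' → Good s (A \ S) m' := by
        intro S hS hSA hne hL m' hm'
        refine ih (A \ S) m' ?_ (sinv_sdiff hinv hS) (per3_mono hper sdiff_subset) hm'
          (le_trans (card_le_card hL) hLam)
        have h1 := card_sdiff_add_card_eq_card hSA
        have h2 := hne.card_pos
        omega
      by_cases h1 : ∃ a ∈ A, Even (orb s a).card
      · -- even cycle
        obtain ⟨a, ha, hev⟩ := h1
        obtain ⟨w, hw, htile⟩ := (hTIL V s a).1 hev
        have hsub := orb_sub hinv ha
        refine hRED V s A (orb s a) m w hsub hinv (orb_sinv s a) hm hw ?_ ?_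
        · intro c hc
          exact hTBAL V s (orb s a) w c (orb_sinv s a) (per3_mono hper hsub) hw htile hc
        · refine step _ (orb_sinv s a) hsub ⟨a, self_mem s a⟩ (lam_sub ?_)
          intro l _ hodd hl
          have h2 := card_filter_sdiff hsub (fun v => (orb s v).card = l)
          have h3 : (orb s a).filter (fun v => (orb s v).card = l) = ∅ := by
            rw [filter_eq_empty_iff]
            intro v hv h4
            rw [← orb_eq (mem_orb.1 hv)] at h4
            rw [h4] at hev
            exact (Nat.not_even_iff_odd.2 hodd) hev
          rw [h3, card_empty, add_zero] at h2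
          rw [← h2]
          exact hl
      have hodd : ∀ a ∈ A, Odd (orb s a).card := by
        intro a ha
        rw [← Nat.not_even_iff_odd]
        exact fun h => h1 ⟨a, ha, h⟩
      by_cases h2 : ∃ a ∈ A, ∃ b ∈ A, ¬ s.SameCycle a b ∧ (orb s a).card = (orb s b).card
      · -- two cycles of equal length
        obtain ⟨a, ha, b, hb, hab, hcard⟩ := h2
        obtain ⟨w, hw, hbal⟩ := hEQ V s a b hab hcard
        have hsub : orb s a ∪ orb s b ⊆ A := union_subset (orb_sub hinv ha) (orb_sub hinv hb)
        have hSi := sinv_union (orb_sinv s a) (orb_sinv s b)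
        refine hRED V s A _ m w hsub hinv hSi hm hw hbal ?_
        refine step _ hSi hsub ⟨a, mem_union_left _ (self_mem s a)⟩ (lam_sub ?_)
        intro l _ _ hl
        have h3 := card_filter_sdiff hsub (fun v => (orb s v).card = l)
        have hc : ∀ v ∈ orb s a ∪ orb s b, (orb s v).card = (orb s a).card := by
          intro v hv
          rcases mem_union.1 hv with h | h
          · rw [← orb_eq (mem_orb.1 h)]
          · rw [← orb_eq (mem_orb.1 h), hcard]
        have hev : Even ((orb s a ∪ orb s b).filter (fun v => (orb s v).card = l)).card := by
          by_cases hla : (orb s a).card = l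
          · have h4 : (orb s a ∪ orb s b).filter (fun v => (orb s v).card = l) =
                orb s a ∪ orb s b := by
              rw [filter_eq_self]
              intro v hv
              rw [hc v hv, hla]
            rw [h4, card_union_of_disjoint, ← hcard]
            · exact ⟨_, rfl⟩
            · rw [disjoint_left]
              intro v hv hv'
              exact hab ((mem_orb.1 hv).trans (mem_orb.1 hv').symm)
          · have h4 : (orb s a ∪ orb s b).filter (fun v => (orb s v).card = l) = ∅ := by
              rw [filter_eq_empty_iff]
              intro v hv h5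
              rw [hc v hv] at h5
              exact hla h5
            rw [h4, card_empty]
            exact ⟨0, rfl⟩
        rw [← h3]
        exact hl.add_even hev
      have hdist : ∀ a ∈ A, ∀ b ∈ A, (orb s a).card = (orb s b).card → s.SameCycle a b := by
        intro a ha b hb h
        by_contra h'
        exact h2 ⟨a, ha, b, hb, h', h⟩
      have huniq : ∀ a ∈ A, A.filter (fun v => (orb s v).card = (orb s a).card) = orb s a := by
        intro a ha
        ext v
        rw [mem_filter, mem_orb]
        constructor
        · rintro ⟨hv, h⟩
          exact hdist a ha v hv h.symm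
        · intro h
          exact ⟨orb_sub hinv ha (mem_orb.2 h), by rw [orb_eq h]⟩
      by_cases h3 : ∃ a ∈ A, (orb s a).card = 3
      · -- a triangle
        obtain ⟨a0, ha0, hc0⟩ := h3
        have hex : ∃ a ∈ orb s a0, m a ∉ orb s a0 := by
          by_contra hcon
          push Not at hcon
          have hT : InvOn (orb s a0) m := fun v hv =>
            ⟨hcon v hv, (hm v (orb_sub hinv ha0 hv)).2⟩
          have := even_card hT
          rw [hc0] at this
          exact absurd this (by decide)
        obtain ⟨a, haT, hmaT⟩ := hex
        have ha : a ∈ A := orb_sub hinv ha0 haT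
        have hma : m a ∈ A := (hm a ha).1
        have horb := orb_eq (mem_orb.1 haT)
        have hns : ¬ s.SameCycle a (m a) := by
          intro h
          exact hmaT (mem_orb.2 ((mem_orb.1 haT).trans h))
        have hc3 : (orb s a).card = 3 := by rw [← horb, hc0]
        have hsub : orb s a ∪ orb s (m a) ⊆ A :=
          union_subset (orb_sub hinv ha) (orb_sub hinv hma)
        have hSi := sinv_union (orb_sinv s a) (orb_sinv s (m a))
        refine hTRI V s A m a hinv hper hm ha hns hc3 (hodd _ hma) ?_
        refine step _ hSi hsub ⟨a, mem_union_left _ (self_mem s a)⟩ (lam_sub ?_)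
        intro l h5 _ hl
        by_cases hll : l = (orb s (m a)).card
        · have h4 : (A \ (orb s a ∪ orb s (m a))).filter (fun v => (orb s v).card = l) = ∅ := by
            rw [filter_eq_empty_iff]
            intro v hv hvl
            rw [mem_sdiff] at hv
            rw [hll] at hvl
            exact hv.2 (mem_union_right _ (mem_orb.2 (hdist _ hma v hv.1 hvl.symm)))
          rw [h4, card_empty] at hl
          exact absurd hl (by decide)
        · have h6 := card_filter_sdiff hsub (fun v => (orb s v).card = l)
          have h4 : (orb s a ∪ orb s (m a)).filter (fun v => (orb s v).card = l) = ∅ := by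
            rw [filter_eq_empty_iff]
            intro v hv hvl
            rcases mem_union.1 hv with h | h
            · rw [← orb_eq (mem_orb.1 h), hc3] at hvl
              omega
            · rw [← orb_eq (mem_orb.1 h)] at hvl
              exact hll hvl.symm
          rw [h4, card_empty, add_zero] at h6
          rw [← h6]
          exact hl
      -- all cycles odd, of different lengths at least 5
      have hmem : ∀ a ∈ A, (orb s a).card ∈ Lam s A := by
        intro a ha
        unfold Lam
        rw [mem_filter, mem_range, huniq a ha]
        have h4 : 1 < (orb s a).card := by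
          rw [one_lt_card]
          exact ⟨a, self_mem s a, s a, (orb_sinv s a a).2 (self_mem s a), (hper a ha).1.symm⟩
        have h5 : (orb s a).card ≠ 3 := fun h => h3 ⟨a, ha, h⟩
        have h6 := hodd a ha
        refine ⟨?_, ?_, h6, h6⟩
        · have := card_le_univ (orb s a)
          omega
        · obtain ⟨r, hr⟩ := h6
          omega
      by_cases hne : A.Nonempty
      · obtain ⟨a, ha⟩ := hne
        have hevA := even_card hm
        have hoa := hodd a ha
        have hex1 : ∃ b ∈ A, b ∉ orb s a := by
          by_contra hcon
          push Not at hcon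
          have : A = orb s a := Subset.antisymm hcon (orb_sub hinv ha)
          rw [this] at hevA
          exact (Nat.not_even_iff_odd.2 hoa) hevA
        obtain ⟨b, hb, hba⟩ := hex1
        have hob := hodd b hb
        have hnab : ¬ s.SameCycle a b := fun h => hba (mem_orb.2 h)
        have hsub : orb s a ∪ orb s b ⊆ A := union_subset (orb_sub hinv ha) (orb_sub hinv hb)
        have disj : ∀ {x y : V}, ¬ s.SameCycle x y → Disjoint (orb s x) (orb s y) := by
          intro x y h
          rw [disjoint_left]
          intro v hv hv'
          exact h ((mem_orb.1 hv).trans (mem_orb.1 hv').symm)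
        by_cases hAB : A ⊆ orb s a ∪ orb s b
        · have hAe : A = orb s a ∪ orb s b := Subset.antisymm hAB hsub
          rw [hAe]
          rw [hAe] at hper hm
          exact hK1 V s m a b hnab hoa hob hper hm
        · obtain ⟨c, hc, hcab⟩ := not_subset.1 hAB
          rw [mem_union, not_or] at hcab
          have hnac : ¬ s.SameCycle a c := fun h => hcab.1 (mem_orb.2 h)
          have hnbc : ¬ s.SameCycle b c := fun h => hcab.2 (mem_orb.2 h)
          have hoc := hodd c hc
          have hex2 : ∃ d ∈ A, d ∉ orb s a ∪ orb s b ∪ orb s c := by
            by_contra hcon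
            push Not at hcon
            have hAe : A = orb s a ∪ orb s b ∪ orb s c :=
              Subset.antisymm hcon (union_subset hsub (orb_sub hinv hc))
            rw [hAe, card_union_of_disjoint, card_union_of_disjoint (disj hnab)] at hevA
            · exact (Nat.not_even_iff_odd.2 ((hoa.add_odd hob).add_odd hoc)) hevA
            · rw [disjoint_union_left]
              exact ⟨disj hnac, disj hnbc⟩
          obtain ⟨d, hd, hdn⟩ := hex2
          rw [mem_union, mem_union, not_or, not_or] at hdn
          have nad : (orb s a).card ≠ (orb s d).card := fun h => hdn.1.1 (mem_orb.2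
            (hdist a ha d hd h))
          have nbd : (orb s b).card ≠ (orb s d).card := fun h => hdn.1.2 (mem_orb.2
            (hdist b hb d hd h))
          have ncd : (orb s c).card ≠ (orb s d).card := fun h => hdn.2 (mem_orb.2
            (hdist c hc d hd h))
          have nab : (orb s a).card ≠ (orb s b).card := fun h => hnab (hdist a ha b hb h)
          have nac : (orb s a).card ≠ (orb s c).card := fun h => hnac (hdist a ha c hc h)
          have nbc : (orb s b).card ≠ (orb s c).card := fun h => hnbc (hdist b hb c hc h)
          have h4 : ({(orb s a).card, (orb s b).card, (orb s c).card, (orb s d).card} :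
              Finset ℕ) ⊆ Lam s A := by
            intro x hx
            simp only [mem_insert, mem_singleton] at hx
            rcases hx with h | h | h | h <;> rw [h]
            · exact hmem a ha
            · exact hmem b hb
            · exact hmem c hc
            · exact hmem d hd
          have h5 := card_le_card h4
          rw [card_insert_of_notMem, card_insert_of_notMem, card_insert_of_notMem,
            card_singleton] at h5
          · omega
          · simpa using ncd
          · simp only [mem_insert, mem_singleton, not_or]
            exact ⟨nbc, nbd⟩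
          · simp only [mem_insert, mem_singleton, not_or]
            exact ⟨nab, nac, nad⟩
      · rw [not_nonempty_iff_eq_empty] at hne
        subst hne
        exact ⟨fun _ => true, fun v hv => absurd hv (notMem_empty v), id,
          fun v hv => absurd hv (notMem_empty v)⟩
  intro A m h1 h2 h3 h4
  exact main A.card A m le_rfl h1 h2 h3 h4

end Pool.Agent.Helper52.AN
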